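import Mathlib
import Pool.Agent.U115.WM.Stm

/-!
# Project WM, package CMS (helper461)
-/

set_option autoImplicit false

namespace Pool.Agent.U461.WM

open Pool.Agent.U115.WM

theorem sym_sum (k : ℕ) (h : Fin k → Fin k → ℕ) (hs : ∀ i j, h i j = h j i) :
    2 * ∑ p ∈ (Finset.univ : Finset (Fin k × Fin k)).filter (fun p => p.1 ≤ p.2), h p.1 p.2 =
      (∑ i, ∑ j, h i j) + ∑ i, h i i := by
  rw [Finset.sum_filter, ← Finset.univ_product_univ, Finset.sum_product]
  have h1 : ∑ i : Fin k, ∑ j : Fin k, (if i ≤ j then h i j else 0) =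
      ∑ i : Fin k, ∑ j : Fin k, (if j ≤ i then h i j else 0) := by
    rw [Finset.sum_comm]
    apply Finset.sum_congr rfl
    intro i _
    apply Finset.sum_congr rfl
    intro j _
    rw [hs]
  have h2 : ∑ i : Fin k, ∑ j : Fin k, (if i ≤ j then h i j else 0) +
      ∑ i : Fin k, ∑ j : Fin k, (if j ≤ i then h i j else 0) =
      (∑ i, ∑ j, h i j) + ∑ i, h i i := by
    rw [← Finset.sum_add_distrib, ← Finset.sum_add_distrib]
    apply Finset.sum_congr rfl
    intro i _
    have h3 : h i i = ∑ j : Fin k, if i = j then h i j else 0 := by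
      rw [Finset.sum_ite_eq]
      simp
    rw [h3, ← Finset.sum_add_distrib, ← Finset.sum_add_distrib]
    apply Finset.sum_congr rfl
    intro j _
    rcases lt_trichotomy i j with hij | hij | hij
    · rw [if_pos hij.le, if_neg (not_le.2 hij), if_neg hij.ne]
    · subst hij
      simp
    · rw [if_neg (not_le.2 hij), if_pos hij.le, if_neg hij.ne']
      simp
  rw [← h2, ← h1]
  ring

theorem t_CMS : S_CMS := by
  intro k e M he hM hrev
  obtain ⟨s, hs⟩ : ∃ s : ℕ, s = ∑ i, e i := ⟨_, rfl⟩
  have hvol : vol e = 2 ^ s := by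
    unfold vol
    rw [Finset.prod_pow_eq_pow_sum, hs]
  let T : Finset (Fin k × Fin k) := Finset.univ.filter (fun p => p.1 ≤ p.2)
  have hT : 2 * T.card = k * (k + 1) := by
    have h1 := sym_sum k (fun _ _ => 1) (fun _ _ => rfl)
    simp only [Finset.sum_const, Finset.card_univ, Fintype.card_fin, smul_eq_mul, mul_one] at h1
    change 2 * T.card = k * k + k at h1
    rw [h1]; ring
  have hE : ∑ p ∈ T, (e p.1 + e p.2) = (k + 1) * s := by
    have h1 := sym_sum k (fun i j => e i + e j) (fun _ _ => add_comm _ _)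
    simp only [Finset.sum_add_distrib, Finset.sum_const, Finset.card_univ, Fintype.card_fin,
      smul_eq_mul, ← Finset.mul_sum, ← hs] at h1
    rw [← Finset.sum_add_distrib] at h1
    change 2 * ∑ p ∈ T, (e p.1 + e p.2) = _ at h1
    have h2 : k * s + k * s + (s + s) = 2 * ((k + 1) * s) := by ring
    rw [h2] at h1
    exact Nat.eq_of_mul_eq_mul_left (by norm_num) h1
  constructor
  · rw [← Finset.prod_subtype T (p := fun p : Fin k × Fin k => p.1 ≤ p.2) (by intro x; simp [T])
      (fun p => max 1 (M / 2 ^ (e p.1 + e p.2)))]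
    have hpt : ∀ p ∈ T, max 1 (M / 2 ^ (e p.1 + e p.2)) ≤
        (M / 2 ^ (e p.1 + e p.2)) * 2 ^ (e p.1 - e p.2.rev) := by
      intro p _
      have hx : 0 < M / 2 ^ (e p.1 + e p.2) := by positivity
      apply max_le
      · rw [div_mul_eq_mul_div, one_le_div (by positivity)]
        calc (2 : ℝ) ^ (e p.1 + e p.2) ≤ 2 ^ ((e p.2 + e p.2.rev) + (e p.1 - e p.2.rev)) :=
              pow_le_pow_right₀ (by norm_num) (by omega)
          _ = 2 ^ (e p.2 + e p.2.rev) * 2 ^ (e p.1 - e p.2.rev) := pow_add _ _ _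
          _ ≤ M * 2 ^ (e p.1 - e p.2.rev) :=
              mul_le_mul_of_nonneg_right (hrev p.2) (by positivity)
      · exact le_mul_of_one_le_right hx.le (one_le_pow₀ (by norm_num))
    have hgap : ∑ p ∈ T, (e p.1 - e p.2.rev) ≤
        ∑ p ∈ (Finset.univ : Finset (Fin k × Fin k)).filter (fun p => p.1 < p.2),
          (e p.2 - e p.1) := by
      let φ : Fin k × Fin k → Fin k × Fin k := fun p => (p.2.rev, p.1)
      have hφ : Function.Injective φ := by
        intro p q hpq
        have h1 : p.2.rev = q.2.rev := congrArg Prod.fst hpq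
        have h2 : p.1 = q.1 := congrArg Prod.snd hpq
        exact Prod.ext h2 (Fin.rev_injective h1)
      have h1 : ∑ p ∈ T, (e p.1 - e p.2.rev) = ∑ q ∈ T.image φ, (e q.2 - e q.1) := by
        rw [Finset.sum_image (fun p _ q _ h => hφ h)]
      rw [h1]
      apply Finset.sum_le_sum_of_ne_zero
      intro q _ hq
      rw [Finset.mem_filter]
      refine ⟨Finset.mem_univ _, ?_⟩
      by_contra hc
      push Not at hc
      have := he hc
      omega
    calc ∏ p ∈ T, max 1 (M / 2 ^ (e p.1 + e p.2))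
        ≤ ∏ p ∈ T, (M / 2 ^ (e p.1 + e p.2)) * 2 ^ (e p.1 - e p.2.rev) :=
          Finset.prod_le_prod (fun p _ => le_trans zero_le_one (le_max_left _ _)) hpt
      _ = (M ^ T.card / 2 ^ ((k + 1) * s)) * 2 ^ (∑ p ∈ T, (e p.1 - e p.2.rev)) := by
          rw [Finset.prod_mul_distrib, Finset.prod_div_distrib, Finset.prod_const,
            Finset.prod_pow_eq_pow_sum, Finset.prod_pow_eq_pow_sum, hE]
      _ ≤ (M ^ T.card / 2 ^ ((k + 1) * s)) * gap e := by
          apply mul_le_mul_of_nonneg_left _ (by positivity)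
          unfold gap
          rw [Finset.prod_pow_eq_pow_sum]
          exact pow_le_pow_right₀ (by norm_num) (by convert hgap)
      _ = (M ^ (k : ℝ) * vol e ^ (-2 : ℝ)) ^ (((k : ℝ) + 1) / 2) * gap e := by
          congr 1
          have hTr : ((T.card : ℕ) : ℝ) = (k : ℝ) * (((k : ℝ) + 1) / 2) := by
            have : (2 : ℝ) * (T.card : ℝ) = (k : ℝ) * ((k : ℝ) + 1) := by exact_mod_cast hT
            linarith
          rw [hvol, Real.mul_rpow (by positivity) (by positivity), ← Real.rpow_mul hM.le,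
            ← Real.rpow_mul (by positivity), ← hTr, Real.rpow_natCast, div_eq_mul_inv]
          congr 1
          have h2 : (-2 : ℝ) * (((k : ℝ) + 1) / 2) = -((k + 1 : ℕ) : ℝ) := by
            push_cast; ring
          rw [h2, Real.rpow_neg (by positivity), Real.rpow_natCast, ← pow_mul, mul_comm s]
  · have h1 : ∏ i : Fin k, (2 : ℝ) ^ (e i + e i.rev) ≤ ∏ _i : Fin k, M :=
      Finset.prod_le_prod (fun i _ => by positivity) fun i _ => hrev i
    rw [Finset.prod_pow_eq_pow_sum, Finset.sum_add_distrib, Finset.prod_const, Finset.card_univ,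
      Fintype.card_fin] at h1
    have h2 : ∑ i : Fin k, e i.rev = s := by
      rw [hs]
      exact Equiv.sum_comp Fin.revPerm e
    rw [h2, ← hs] at h1
    rw [hvol, Real.rpow_natCast, Real.rpow_two, ← pow_mul, mul_two]
    exact h1

end Pool.Agent.U461.WM
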